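import Mathlib
import Pool.Agent.H5.RA.Key2
import Pool.Agent.H5.RA.Fun2

set_option autoImplicit false

namespace Pool.Agent.Results.MP_410e25_an.Decomposition

open MeasureTheory Filter Topology SchwartzMap FourierTransform Set Pool.Agent.H5.RA
open scoped ENNReal Real ZeroAtInfty

/-- `f` (restricted to `(-A, A)`) belongs to the algebra `R_A`: its functional on the almost
periodic polynomials with exponents in `(-A, A)` is bounded for the sup-norm. -/
def InR (A : ℝ≥0∞) (f : ℝ → ℂ) : Prop := ∃ C : ℝ, BoundR A C f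

theorem exists_functional {V X : Type*} [AddCommGroup V] [Module ℂ V] [NormedAddCommGroup X]
    [NormedSpace ℂ X] (T : V →ₗ[ℂ] X) (φ : V →ₗ[ℂ] ℂ) {C : ℝ} (hC : 0 ≤ C)
    (h : ∀ v, ‖φ v‖ ≤ C * ‖T v‖) : ∃ Λ : X →L[ℂ] ℂ, ‖Λ‖ ≤ C ∧ ∀ v, Λ (T v) = φ v := by
  have hker : LinearMap.ker T ≤ LinearMap.ker φ := by
    intro v hv
    rw [LinearMap.mem_ker] at hv ⊢
    have := h v
    rw [hv, norm_zero, mul_zero] at this
    exact norm_le_zero_iff.mp this
  let ψ₀ : LinearMap.range T →ₗ[ℂ] ℂ :=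
    ((LinearMap.ker T).liftQ φ hker).comp T.quotKerEquivRange.symm.toLinearMap
  have hψ : ∀ (v : V) (hv : T v ∈ LinearMap.range T), ψ₀ ⟨T v, hv⟩ = φ v := by
    intro v hv
    simp only [ψ₀, LinearMap.comp_apply, LinearEquiv.coe_coe]
    rw [LinearMap.quotKerEquivRange_symm_apply_image, Submodule.mkQ_apply, Submodule.liftQ_apply]
  obtain ⟨Λ, hΛ, hn⟩ := exists_extension_norm_eq (LinearMap.range T)
    (ψ₀.mkContinuous C (by
      rintro ⟨_, v, rfl⟩
      rw [hψ]
      exact h v))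
  refine ⟨Λ, ?_, ?_⟩
  · rw [hn]
    exact LinearMap.mkContinuous_norm_le _ hC _
  · intro v
    have := hΛ ⟨T v, LinearMap.mem_range_self T v⟩
    rw [this]
    exact hψ v _

/-- The space of test functions supported in `(-A, A)`. -/
def testSpace (A : ℝ≥0∞) : Submodule ℂ 𝓢(ℝ, ℂ) where
  carrier := {p | HasCompactSupport p ∧ tsupport p ⊆ Iv A}
  add_mem' := by
    rintro p q ⟨hp, hp'⟩ ⟨hq, hq'⟩
    exact ⟨hp.add hq, (tsupport_add p q).trans (union_subset hp' hq')⟩
  zero_mem' := by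
    constructor
    · exact HasCompactSupport.zero
    · have : tsupport ((0 : 𝓢(ℝ, ℂ)) : ℝ → ℂ) = ∅ := by
        rw [tsupport_eq_empty_iff]; rfl
      rw [this]; exact empty_subset _
  smul_mem' := by
    rintro c p ⟨hp, hp'⟩
    exact ⟨hp.smul_left, (tsupport_smul_subset_right (fun _ => c) p).trans hp'⟩

theorem exists_radius {A : ℝ≥0∞} (hA : 0 < A) {K : Set ℝ} (hK : IsCompact K) (hKA : K ⊆ Iv A) :
    ∃ R : ℝ, 0 < R ∧ K ⊆ Ioo (-R) R ∧ Icc (-R) R ⊆ Iv A := by
  have hK' : IsCompact (insert 0 K) := hK.insert 0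
  obtain ⟨x₀, hx₀, hmax⟩ := hK'.exists_isMaxOn ⟨0, mem_insert _ _⟩ continuous_abs.continuousOn
  have hx : x₀ ∈ Iv A := by
    rcases hx₀ with rfl | h
    · exact zero_mem_Iv hA
    · exact hKA h
  obtain ⟨r, hr1, hr2⟩ := ENNReal.lt_iff_exists_nnreal_btwn.mp
    (show ENNReal.ofReal |x₀| < A from hx)
  have hr1' : |x₀| < r := by
    rw [← ENNReal.ofReal_coe_nnreal] at hr1
    exact (ENNReal.ofReal_lt_ofReal_iff_of_nonneg (abs_nonneg _)).mp hr1
  refine ⟨r, (abs_nonneg _).trans_lt hr1', ?_, ?_⟩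
  · intro y hy
    have : |y| ≤ |x₀| := hmax (mem_insert_of_mem _ hy)
    exact abs_lt.mp (this.trans_lt hr1')
  · intro y hy
    have h1 : |y| ≤ r := abs_le.mpr hy
    have h2 : ENNReal.ofReal |y| ≤ ENNReal.ofReal (r : ℝ) := ENNReal.ofReal_le_ofReal h1
    rw [ENNReal.ofReal_coe_nnreal] at h2
    exact lt_of_le_of_lt h2 hr2

theorem exists_best {A : ℝ≥0∞} (hA : 0 < A) {f : ℝ → ℂ} (hf : InR A f) :
    ∃ C₀ : ℝ, 0 ≤ C₀ ∧ BoundR A C₀ f ∧ ∀ C, BoundR A C f → C₀ ≤ C := by
  have hnn : ∀ C, BoundR A C f → 0 ≤ C := fun C hC =>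
    (norm_nonneg _).trans (hC.norm_le (zero_mem_Iv hA))
  have hne : {C : ℝ | BoundR A C f}.Nonempty := hf
  have hbdd : BddBelow {C : ℝ | BoundR A C f} := ⟨0, fun C hC => hnn C hC⟩
  refine ⟨sInf {C : ℝ | BoundR A C f}, le_csInf hne fun C hC => hnn C hC, ?_,
    fun C hC => csInf_le hbdd hC⟩
  intro c hc
  rcases (apNorm_nonneg c).eq_or_lt with h0 | h0
  · obtain ⟨C, hC⟩ := hf
    have := hC c hc
    rw [← h0, mul_zero] at this ⊢
    exact this
  · rw [← div_le_iff₀ h0]
    apply le_csInf hne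
    intro C hC
    rw [div_le_iff₀ h0]
    exact hC c hc

theorem integrable_mul {A : ℝ≥0∞} {C : ℝ} {f : ℝ → ℂ} (hf : BoundR A C f)
    (hfm : AEStronglyMeasurable f (volume.restrict (Iv A))) (p : 𝓢(ℝ, ℂ)) :
    Integrable (fun x => p x * f x) (volume.restrict (Iv A)) := by
  refine Integrable.mul_bdd (c := C) p.integrable.restrict hfm ?_
  rw [ae_restrict_iff' (isOpen_Iv A).measurableSet]
  exact Filter.Eventually.of_forall fun x hx => hf.norm_le hx

/-- The Fourier transform on test functions. -/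
noncomputable def T (A : ℝ≥0∞) : testSpace A →ₗ[ℂ] C₀(ℝ, ℂ) where
  toFun p := (𝓕 (p : 𝓢(ℝ, ℂ))).toZeroAtInfty
  map_add' p q := by
    ext t
    change (𝓕 ((p : 𝓢(ℝ, ℂ)) + (q : 𝓢(ℝ, ℂ)))) t = (𝓕 (p : 𝓢(ℝ, ℂ))) t + (𝓕 (q : 𝓢(ℝ, ℂ))) t
    rw [FourierTransform.fourier_add]; rfl
  map_smul' c p := by
    ext t
    change (𝓕 (c • (p : 𝓢(ℝ, ℂ)))) t = c • (𝓕 (p : 𝓢(ℝ, ℂ))) t
    rw [FourierTransform.fourier_smul]; rfl

theorem integral_eq {A : ℝ≥0∞} {p : 𝓢(ℝ, ℂ)} (hp : tsupport p ⊆ Iv A) (f : ℝ → ℂ) :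
    ∫ x in Iv A, p x * f x = ∫ x, p x * f x := by
  apply setIntegral_eq_integral_of_forall_compl_eq_zero
  intro x hx
  have : p x = 0 := image_eq_zero_of_notMem_tsupport fun h => hx (hp h)
  rw [this, zero_mul]

theorem result (A : ℝ≥0∞) (hA : 0 < A) (f : ℝ → ℂ) (hf : InR A f)
    (hm : NullMeasurable f (volume.restrict (Iv A))) :
    ∃ fc fm : ℝ → ℂ, (∀ x ∈ Iv A, f x = fc x + fm x) ∧
      (InR A fc ∧ ContinuousOn fc (Iv A)) ∧
      (InR A fm ∧ NullMeasurable fm (volume.restrict (Iv A))) ∧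
      (∀ᵐ x ∂(volume.restrict (Iv A)), fm x = 0) ∧
      (∀ C : ℝ, BoundR A C f → BoundR A C fc) := by
  obtain ⟨C₀, hC₀, hb, hmin⟩ := exists_best hA hf
  have hfae : AEMeasurable f (volume.restrict (Iv A)) := hm.aemeasurable
  have hfm : AEStronglyMeasurable f (volume.restrict (Iv A)) := hfae.aestronglyMeasurable
  let φ : testSpace A →ₗ[ℂ] ℂ :=
    { toFun := fun p => ∫ x in Iv A, (p : 𝓢(ℝ, ℂ)) x * f x
      map_add' := by
        intro p q
        rw [← integral_add (integrable_mul hb hfm p) (integrable_mul hb hfm q)]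
        congr 1
        ext x
        change ((p : 𝓢(ℝ, ℂ)) x + (q : 𝓢(ℝ, ℂ)) x) * f x = _
        ring
      map_smul' := by
        intro c p
        rw [RingHom.id_apply, smul_eq_mul, ← integral_const_mul]
        congr 1
        ext x
        change (c * (p : 𝓢(ℝ, ℂ)) x) * f x = _
        ring }
  have hφ : ∀ p : testSpace A, φ p = ∫ x in Iv A, (p : 𝓢(ℝ, ℂ)) x * f x := fun p => rfl
  have hφT : ∀ p : testSpace A, ‖φ p‖ ≤ C₀ * ‖T A p‖ := by
    intro p
    obtain ⟨R, hR, hsub, hRA⟩ := exists_radius hA p.2.1.isCompact p.2.2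
    have hs : ∀ x, (p : 𝓢(ℝ, ℂ)) x ≠ 0 → x ∈ Ioo (-R) R := fun x hx =>
      hsub (subset_tsupport _ hx)
    have h1 := key hC₀ hb hfm (p : 𝓢(ℝ, ℂ)) p.2.1 hR hs hRA (M := ‖T A p‖) (by
      intro ξ
      rw [← ZeroAtInftyContinuousMap.norm_toBCF_eq_norm]
      exact (T A p).toBCF.norm_coe_le_norm ξ)
    rw [hφ, integral_eq p.2.2]
    have h2 : (∫ x, (p : 𝓢(ℝ, ℂ)) x * f x) = ∫ x in (-R)..R, (p : 𝓢(ℝ, ℂ)) x * f x := by
      rw [intervalIntegral.integral_of_le (by linarith)]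
      symm
      apply setIntegral_eq_integral_of_forall_compl_eq_zero
      intro x hx
      have : (p : 𝓢(ℝ, ℂ)) x = 0 := by
        by_contra h
        exact hx (Ioo_subset_Ioc_self (hs x h))
      rw [this, zero_mul]
    rw [h2]
    exact h1
  obtain ⟨Λ, hΛ, hΛT⟩ := exists_functional (T A) φ hC₀ hφT
  obtain ⟨g, hgc, hg⟩ := exists_limit Λ
  have hgb : BoundR A C₀ g := fun c _ =>
    (limit_bound Λ hg c).trans (mul_le_mul_of_nonneg_right hΛ (apNorm_nonneg c))
  have hae : ∀ᵐ x ∂(volume : Measure ℝ), x ∈ Iv A → (f x - g x) = 0 := by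
    apply (isOpen_Iv A).ae_eq_zero_of_integral_contDiff_smul_eq_zero
    · rw [locallyIntegrableOn_iff (isOpen_Iv A).isLocallyClosed]
      intro K hKA hK
      apply Integrable.sub
      · refine IntegrableOn.of_bound hK.measure_lt_top (hfm.mono_set hKA) C₀ ?_
        rw [ae_restrict_iff' hK.measurableSet]
        exact Filter.Eventually.of_forall fun x hx => hb.norm_le (hKA hx)
      · exact hgc.continuousOn.integrableOn_compact hK
    · intro w hw hwc hwA
      have hw' : ContDiff ℝ ((⊤ : ℕ∞) : WithTop ℕ∞) (fun x => ((w x : ℝ) : ℂ)) :=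
        Complex.ofRealCLM.contDiff.comp hw
      have hwc' : HasCompactSupport (fun x => ((w x : ℝ) : ℂ)) :=
        hwc.comp_left (g := fun r : ℝ => (r : ℂ)) Complex.ofReal_zero
      let p : 𝓢(ℝ, ℂ) := hwc'.toSchwartzMap hw'
      have hpx : ∀ x, p x = ((w x : ℝ) : ℂ) := fun x => rfl
      have hpc : HasCompactSupport p := hwc'
      have hpA : tsupport p ⊆ Iv A := by
        refine (closure_mono ?_).trans hwA
        intro x hx
        rw [Function.mem_support, hpx] at hx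
        rw [Function.mem_support]
        intro h
        apply hx
        rw [h, Complex.ofReal_zero]
      let P : testSpace A := ⟨p, hpc, hpA⟩
      have e1 : (∫ x, p x * f x) = Λ (𝓕 p).toZeroAtInfty := by
        rw [← integral_eq hpA]
        exact (hΛT P).symm
      have e2 : (∫ x, p x * g x) = Λ (𝓕 p).toZeroAtInfty := limit_integral Λ hg p hpc
      have i1 : Integrable (fun x => p x * f x) := by
        have h1 := integrable_mul hb hfm p
        rw [← IntegrableOn, integrableOn_iff_integrable_of_support_subset] at h1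
        · exact h1
        · intro x hx
          rw [Function.mem_support] at hx
          exact hpA (subset_tsupport _ (left_ne_zero_of_mul hx))
      have i2 : Integrable (fun x => p x * g x) :=
        (p.continuous.mul hgc).integrable_of_hasCompactSupport hpc.mul_right
      have e3 : (∫ x, w x • (f x - g x)) = (∫ x, p x * f x) - ∫ x, p x * g x := by
        rw [← integral_sub i1 i2]
        congr 1
        ext x
        rw [hpx, Complex.real_smul]; ring
      rw [e3, e1, e2, sub_self]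
  have hae' : ∀ᵐ x ∂(volume.restrict (Iv A)), f x - g x = 0 := by
    rw [ae_restrict_iff' (isOpen_Iv A).measurableSet]
    exact hae
  refine ⟨g, fun x => f x - g x, fun x _ => by ring, ⟨⟨C₀, hgb⟩, hgc.continuousOn⟩,
    ⟨⟨C₀ + C₀, ?_⟩, ?_⟩, hae', ?_⟩
  · intro c hc
    have e : (c.sum fun x a => a * (f x - g x)) =
        (c.sum fun x a => a * f x) - c.sum fun x a => a * g x := by
      simp only [Finsupp.sum, mul_sub, Finset.sum_sub_distrib]
    rw [e, add_mul]
    exact (norm_sub_le _ _).trans (add_le_add (hb c hc) (hgb c hc))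
  · exact (hfae.sub hgc.aemeasurable).nullMeasurable
  · intro C hC c hc
    exact (hgb c hc).trans (mul_le_mul_of_nonneg_right (hmin C hC) (apNorm_nonneg c))

end Pool.Agent.Results.MP_410e25_an.Decomposition
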